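import Mathlib

/-!
# Adding the structurally stable elements to a dense Gδ set on which a relation is Borel
-/

set_option autoImplicit false

open Set Filter Topology TopologicalSpace

namespace Pool.Agent.W948.BC

/-- the stable elements of an equivalence relation: the interior points of the classes -/
def stab {X : Type} [TopologicalSpace X] (E : X → X → Prop) : Set X :=
  {f | ∃ U : Set X, IsOpen U ∧ f ∈ U ∧ ∀ g ∈ U, E f g}

theorem glue {X : Type} [TopologicalSpace X] [SecondCountableTopology X] (E : X → X → Prop)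
    (hE : Equivalence E) {G R : Set X} (hG : IsGδ G) (hGd : Dense G) (hR : IsGδ R)
    (hGR : Dense (G ∩ R))
    (hm : @MeasurableSet _ (borel (X × X)) {p : X × X | p.1 ∈ G ∧ p.2 ∈ G ∧ E p.1 p.2}) :
    ∃ S : Set X, IsGδ S ∧ Dense S ∧ stab E ⊆ S ∧ S ⊆ stab E ∪ R ∧
      @MeasurableSet _ (borel (X × X)) {p : X × X | p.1 ∈ S ∧ p.2 ∈ S ∧ E p.1 p.2} := by
  have hso : IsOpen (stab E) := by
    rw [isOpen_iff_mem_nhds]
    rintro f ⟨U, hU, hfU, hUE⟩
    refine Filter.mem_of_superset (hU.mem_nhds hfU) fun g hg => ?_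
    exact ⟨U, hU, hg, fun g' hg' => hE.trans (hE.symm (hUE g hg)) (hUE g' hg')⟩
  obtain ⟨Q, hQG, hQc, hQd⟩ := hGd.exists_countable_dense_subset
  -- open parts of the classes
  have ho : ∀ q, IsOpen {f | f ∈ stab E ∧ E q f} := by
    intro q
    rw [isOpen_iff_mem_nhds]
    rintro f ⟨⟨U, hU, hfU, hUE⟩, hqf⟩
    refine Filter.mem_of_superset (hU.mem_nhds hfU) fun g hg => ?_
    exact ⟨⟨U, hU, hg, fun g' hg' => hE.trans (hE.symm (hUE g hg)) (hUE g' hg')⟩,
      hE.trans hqf (hUE g hg)⟩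
  refine ⟨stab E ∪ (G ∩ R), hso.isGδ.union (hG.inter hR), hGR.mono subset_union_right,
    subset_union_left, union_subset_union_right _ inter_subset_right, ?_⟩
  borelize X
  let _ : MeasurableSpace (X × X) := borel (X × X)
  have _ : BorelSpace (X × X) := ⟨rfl⟩
  have hsec : ∀ q ∈ Q, MeasurableSet {g | g ∈ stab E ∪ (G ∩ R) ∧ E q g} := by
    intro q hq
    have h1 : MeasurableSet {g | g ∈ G ∧ E q g} := by
      have hc : Continuous fun g : X => (q, g) := by fun_prop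
      have h2 := hc.borel_measurable hm
      convert h2 using 1
      ext g
      constructor
      · rintro ⟨h3, h4⟩
        exact ⟨hQG hq, h3, h4⟩
      · rintro ⟨_, h3, h4⟩
        exact ⟨h3, h4⟩
    have h5 : {g | g ∈ stab E ∪ (G ∩ R) ∧ E q g} =
        {f | f ∈ stab E ∧ E q f} ∪ ({g | g ∈ G ∧ E q g} ∩ R) := by
      ext g
      constructor
      · rintro ⟨h6 | h6, h7⟩
        · exact Or.inl ⟨h6, h7⟩
        · exact Or.inr ⟨⟨h6.1, h7⟩, h6.2⟩
      · rintro (⟨h6, h7⟩ | ⟨⟨h6, h7⟩, h8⟩)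
        · exact ⟨Or.inl h6, h7⟩
        · exact ⟨Or.inr ⟨h6, h8⟩, h7⟩
    rw [h5]
    exact (ho q).measurableSet.union (h1.inter hR.measurableSet)
  have hfst : Measurable (Prod.fst : X × X → X) := continuous_fst.measurable
  have hsnd : Measurable (Prod.snd : X × X → X) := continuous_snd.measurable
  have hA : MeasurableSet (⋃ q ∈ Q, ((Prod.fst : X × X → X) ⁻¹' {f | f ∈ stab E ∧ E q f}) ∩
      ((Prod.snd : X × X → X) ⁻¹' {g | g ∈ stab E ∪ (G ∩ R) ∧ E q g})) := by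
    refine MeasurableSet.biUnion hQc fun q hq => ?_
    exact (hfst (ho q).measurableSet).inter (hsnd (hsec q hq))
  have hB : MeasurableSet (⋃ q ∈ Q, ((Prod.snd : X × X → X) ⁻¹' {f | f ∈ stab E ∧ E q f}) ∩
      ((Prod.fst : X × X → X) ⁻¹' {g | g ∈ stab E ∪ (G ∩ R) ∧ E q g})) := by
    refine MeasurableSet.biUnion hQc fun q hq => ?_
    exact (hsnd (ho q).measurableSet).inter (hfst (hsec q hq))
  have hC : MeasurableSet ({p : X × X | p.1 ∈ G ∧ p.2 ∈ G ∧ E p.1 p.2} ∩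
      (((Prod.fst : X × X → X) ⁻¹' R) ∩ ((Prod.snd : X × X → X) ⁻¹' R))) :=
    MeasurableSet.inter hm ((hfst hR.measurableSet).inter (hsnd hR.measurableSet))
  have hfind : ∀ f ∈ stab E, ∃ q ∈ Q, E q f := by
    rintro f ⟨U, hU, hfU, hUE⟩
    obtain ⟨q, hqU, hqQ⟩ := hQd.inter_open_nonempty U hU ⟨f, hfU⟩
    exact ⟨q, hqQ, hE.symm (hUE q hqU)⟩
  have hfin := (hA.union hB).union hC
  convert hfin using 1
  ext p
  simp only [mem_ofPred_eq, mem_union, mem_iUnion, mem_inter_iff, mem_preimage, exists_prop]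
  constructor
  · rintro ⟨h1, h2, h3⟩
    by_cases h4 : p.1 ∈ stab E
    · obtain ⟨q, hq, hqf⟩ := hfind _ h4
      exact Or.inl (Or.inl ⟨q, hq, ⟨h4, hqf⟩, h2, hE.trans hqf h3⟩)
    · by_cases h5 : p.2 ∈ stab E
      · obtain ⟨q, hq, hqf⟩ := hfind _ h5
        exact Or.inl (Or.inr ⟨q, hq, ⟨h5, hqf⟩, h1, hE.trans hqf (hE.symm h3)⟩)
      · have h6 := h1.resolve_left h4
        have h7 := h2.resolve_left h5
        exact Or.inr ⟨⟨h6.1, h7.1, h3⟩, h6.2, h7.2⟩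
  · rintro ((⟨q, hq, ⟨h4, h5⟩, h6, h7⟩ | ⟨q, hq, ⟨h4, h5⟩, h6, h7⟩) | ⟨⟨h4, h5, h6⟩, h7, h8⟩)
    · exact ⟨Or.inl h4, h6, hE.trans (hE.symm h5) h7⟩
    · exact ⟨h6, Or.inl h4, hE.trans (hE.symm h7) h5⟩
    · exact ⟨Or.inr ⟨h4, h7⟩, Or.inr ⟨h5, h8⟩, h6⟩

end Pool.Agent.W948.BC
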